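import Mathlib

set_option autoImplicit false
open Set Function Topology Filter TopologicalSpace

namespace Pool.Agent.H.MP_a4908e
universe u

abbrev CP (X : Type u) [TopologicalSpace X] : Type u := {f : X → ℝ // Continuous f}

def H3 {X Y : Type u} [TopologicalSpace X] [TopologicalSpace Y] (T : CP X → CP Y) : Prop :=
  ∀ p, ∃ a b c, ∀ f, (T f).1 p = f.1 a + f.1 b - f.1 c

lemma H3.cont {X Y : Type u} [TopologicalSpace X] [TopologicalSpace Y] {T : CP X → CP Y}
    (h : H3 T) : Continuous T := by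
  refine continuous_induced_rng.2 (continuous_pi fun p => ?_)
  obtain ⟨a, b, c, h⟩ := h p
  have k : ∀ x, Continuous fun f : CP X => f.1 x := fun x =>
    (continuous_apply x).comp continuous_subtype_val
  exact (((k a).add (k b)).sub (k c)).congr fun f => (h f).symm

lemma H3.unif {X Y : Type u} [TopologicalSpace X] [TopologicalSpace Y] {T : CP X → CP Y}
    (h : H3 T) (B : Finset Y) {ε : ℝ} (hε : 0 < ε) : ∃ A : Finset X, ∃ δ : ℝ, 0 < δ ∧
      ∀ f g : CP X, (∀ x ∈ A, |f.1 x - g.1 x| < δ) → ∀ y ∈ B, |(T f).1 y - (T g).1 y| < ε := by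
  classical
  choose a b c h using h
  refine ⟨B.image a ∪ B.image b ∪ B.image c, ε / 3, by positivity, fun f g e y hy => ?_⟩
  have h1 := abs_lt.1 (e (a y) (by simp only [Finset.mem_union, Finset.mem_image]; aesop))
  have h2 := abs_lt.1 (e (b y) (by simp only [Finset.mem_union, Finset.mem_image]; aesop))
  have h3 := abs_lt.1 (e (c y) (by simp only [Finset.mem_union, Finset.mem_image]; aesop))
  rw [h, h, abs_lt]
  constructor <;> linarith [h1.1, h1.2, h2.1, h2.2, h3.1, h3.2]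

variable {N : Type u} [TopologicalSpace N] (B : Set N) (z₀ : N)

abbrev CB : Type u := {g : CP N // ∀ z ∈ B, g.1 z = 0}

def q (z : N) : CB B → ℝ := fun g => g.1.1 z

lemma qc : Continuous (q B) := continuous_pi fun g => g.1.2

abbrev XX : Type u := {p : N × (CB B → ℝ) // p.2 = 0 ∨ p.2 = q B p.1}
abbrev YY : Type u := {p : N × (CB B → ℝ) // p.2 = 0 ∨ (p.1 = z₀ ∧ p.2 ∈ range (q B))}

def i0 (z : N) : XX B := ⟨(z, 0), Or.inl rfl⟩
def i1 (z : N) : XX B := ⟨(z, q B z), Or.inr rfl⟩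
def j0 (z : N) : YY B z₀ := ⟨(z, 0), Or.inl rfl⟩
def j1 (z : N) : YY B z₀ := ⟨(z₀, q B z), Or.inr ⟨rfl, z, rfl⟩⟩
def j2 (p : XX B) : YY B z₀ := ⟨(z₀, p.1.2), p.2.imp id fun h => ⟨rfl, _, h.symm⟩⟩

lemma i0c : Continuous (i0 B) := (Continuous.prodMk_left _).subtype_mk _
lemma i1c : Continuous (i1 B) := (continuous_id.prodMk (qc B)).subtype_mk _
lemma j0c : Continuous (j0 B z₀) := (Continuous.prodMk_left _).subtype_mk _
lemma j2c : Continuous (j2 B z₀) :=
  (continuous_const.prodMk (continuous_snd.comp continuous_subtype_val)).subtype_mk _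

lemma cX (p : XX B) : (∃ z, p = i0 B z) ∨ ∃ z, p = i1 B z := by
  obtain ⟨⟨z, w⟩, h | h⟩ := p
  · obtain rfl : w = _ := h
    exact Or.inl ⟨z, rfl⟩
  · obtain rfl : w = q B z := h
    exact Or.inr ⟨z, rfl⟩

lemma cY (p : YY B z₀) : (∃ z, p = j0 B z₀ z) ∨ ∃ z, p = j1 B z₀ z := by
  obtain ⟨⟨z, w⟩, h | ⟨h, z', h'⟩⟩ := p
  · obtain rfl : w = _ := h
    exact Or.inl ⟨z, rfl⟩
  · obtain rfl : z = _ := h
    obtain rfl : _ = w := h'
    exact Or.inr ⟨z', rfl⟩

def gg (f : CP (XX B)) : CB B :=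
  ⟨⟨fun z => f.1 (i1 B z) - f.1 (i0 B z), (f.2.comp (i1c B)).sub (f.2.comp (i0c B))⟩,
    fun z hz => sub_eq_zero.2 (congrArg f.1 (Subtype.ext (Prod.ext rfl (funext fun g => g.2 z hz))))⟩

def T (f : CP (XX B)) : CP (YY B z₀) :=
  ⟨fun p => f.1 (i0 B p.1.1) + p.1.2 (gg B f), (f.2.comp ((i0c B).comp (continuous_fst.comp
    continuous_subtype_val))).add ((continuous_apply _).comp (continuous_snd.comp
      continuous_subtype_val))⟩

def S (F : CP (YY B z₀)) : CP (XX B) :=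
  ⟨fun p => F.1 (j0 B z₀ p.1.1) + F.1 (j2 B z₀ p) - F.1 (j0 B z₀ z₀), ((F.2.comp ((j0c B z₀).comp
    (continuous_fst.comp continuous_subtype_val))).add (F.2.comp (j2c B z₀))).sub continuous_const⟩

lemma T0 (f : CP (XX B)) (z : N) : (T B z₀ f).1 (j0 B z₀ z) = f.1 (i0 B z) := add_zero _
lemma T1 (f : CP (XX B)) (z : N) :
    (T B z₀ f).1 (j1 B z₀ z) = f.1 (i0 B z₀) + (f.1 (i1 B z) - f.1 (i0 B z)) := rfl
lemma S0 (F : CP (YY B z₀)) (z : N) : (S B z₀ F).1 (i0 B z) = F.1 (j0 B z₀ z) :=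
  add_sub_cancel_right _ _
lemma S1 (F : CP (YY B z₀)) (z : N) :
    (S B z₀ F).1 (i1 B z) = F.1 (j0 B z₀ z) + F.1 (j1 B z₀ z) - F.1 (j0 B z₀ z₀) := rfl

def E : CP (XX B) ≃ CP (YY B z₀) where
  toFun := T B z₀
  invFun := S B z₀
  left_inv f := Subtype.ext (funext fun p => by
    rcases cX B p with ⟨z, rfl⟩ | ⟨z, rfl⟩
    · rw [S0, T0]
    · rw [S1, T0, T0, T1]; ring)
  right_inv f := Subtype.ext (funext fun p => by
    rcases cY B z₀ p with ⟨z, rfl⟩ | ⟨z, rfl⟩
    · rw [T0, S0]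
    · rw [T1, S0, S0, S1]; ring)

lemma hT : H3 (E B z₀) := fun p => by
  rcases cY B z₀ p with ⟨z, rfl⟩ | ⟨z, rfl⟩
  · exact ⟨i0 B z, i0 B z, i0 B z, fun f => (T0 B z₀ f z).trans (by ring)⟩
  · exact ⟨i0 B z₀, i1 B z, i0 B z, fun f => (T1 B z₀ f z).trans (by ring)⟩

lemma hS : H3 (E B z₀).symm := fun _ => ⟨_, _, _, fun _ => rfl⟩

def EH : CP (XX B) ≃ₜ CP (YY B z₀) := ⟨E B z₀, (hT B z₀).cont, (hS B z₀).cont⟩

variable [T35Space N]

lemma e0 : IsClosedEmbedding (i0 B) := LeftInverse.isClosedEmbedding (f := fun p => p.1.1)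
  (fun _ => rfl) (continuous_fst.comp continuous_subtype_val) (i0c B)
lemma e1 : IsClosedEmbedding (i1 B) := LeftInverse.isClosedEmbedding (f := fun p => p.1.1)
  (fun _ => rfl) (continuous_fst.comp continuous_subtype_val) (i1c B)

omit [T35Space N] in
lemma dec (s : Set (XX B)) : s = i0 B '' (i0 B ⁻¹' s) ∪ i1 B '' (i1 B ⁻¹' s) := by
  refine Subset.antisymm (fun p hp => ?_) (union_subset (image_preimage_subset _ _)
    (image_preimage_subset _ _))
  rcases cX B p with ⟨z, rfl⟩ | ⟨z, rfl⟩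
  · exact Or.inl ⟨z, hp, rfl⟩
  · exact Or.inr ⟨z, hp, rfl⟩

lemma perfX (h : ∀ s : Set N, IsGδ s) (s : Set (XX B)) : IsGδ s := by
  have k : ∀ i : N → XX B, IsClosedEmbedding i → IsGδ (i '' (i ⁻¹' sᶜ))ᶜ := fun i hi => by
    obtain ⟨U, h1, h2⟩ := (h (i ⁻¹' s)).eq_iInter_nat
    rw [preimage_compl, h2, compl_iInter, image_iUnion, compl_iUnion]
    exact .iInter_of_isOpen fun n => (hi.isClosedMap _ (h1 n).isClosed_compl).isOpen_compl
  have := (k _ (e0 B)).inter (k _ (e1 B))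
  rwa [← compl_union, ← dec, compl_compl] at this

lemma cntX (h : ∀ s : Set N, s.Countable → IsClosed s) (s : Set (XX B)) (hs : s.Countable) :
    IsClosed s := by
  rw [dec B s]
  exact ((e0 B).isClosedMap _ (h _ (hs.preimage (e0 B).injective))).union
    ((e1 B).isClosedMap _ (h _ (hs.preimage (e1 B).injective)))

lemma q0 {B : Set N} (hB : IsClosed B) {z : N} (h : q B z = 0) : z ∈ B := by
  by_contra hn
  obtain ⟨f, h1, h2, h3⟩ := CompletelyRegularSpace.completely_regular z B hB hn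
  have := congrFun h ⟨⟨fun x => 1 - f x, continuous_const.sub (continuous_subtype_val.comp h1)⟩,
    fun x hx => by simp [h3 hx]⟩
  simp [q, h2] at this

omit [T35Space N] in
lemma nb {U : Set (YY B z₀)} (hU : U ∈ 𝓝 (j0 B z₀ z₀)) : ∃ F : Set (CB B), F.Finite ∧
    ∃ ε > 0, ∀ z, (∀ g ∈ F, |g.1.1 z| < ε) → j1 B z₀ z ∈ U := by
  obtain ⟨s, hs, hs'⟩ := (mem_nhds_subtype _ _ _).1 hU
  have := (Continuous.prodMk_right z₀).continuousAt.preimage_mem_nhds (x := (0 : CB B → ℝ)) hs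
  rw [nhds_pi, Filter.mem_pi] at this
  obtain ⟨F, h1, t, h2, h3⟩ := this
  obtain ⟨ε, e1, e2⟩ := Metric.mem_nhds_iff.1 ((biInter_mem h1).2 fun g _ => h2 g :
    (⋂ g ∈ F, t g) ∈ 𝓝 (0 : ℝ))
  exact ⟨F, h1, ε, e1, fun z hz => hs' (h3 fun g hg => mem_iInter₂.1 (e2 (by
    simpa [q] using hz g hg)) g hg)⟩

lemma gdY (hB : IsClosed B) (h : IsGδ {j0 B z₀ z₀}) :
    ∃ g : ℕ → CP N, B = {z | ∀ n, (g n).1 z = 0} := by
  obtain ⟨U, h1, h2⟩ := h.eq_iInter_nat
  choose F f1 ε f2 f3 using fun n => nb B z₀ ((h1 n).mem_nhds (mem_iInter.1 (h2.le rfl) n))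
  obtain ⟨g, hg⟩ := ((countable_iUnion fun n => (f1 n).countable).insert
    ⟨⟨0, continuous_const⟩, fun _ _ => rfl⟩).exists_eq_range (insert_nonempty _ _)
  refine ⟨fun n => (g n).1, Subset.antisymm (fun z hz n => (g n).2 z hz) fun z hz => q0 hB ?_⟩
  refine congrArg (fun p : YY B z₀ => p.1.2) (h2.ge (mem_iInter.2 fun n => f3 n z fun f hf => ?_) :
    j1 B z₀ z = _)
  obtain ⟨m, rfl⟩ : f ∈ range g := hg ▸ Or.inr (mem_iUnion.2 ⟨n, hf⟩)
  simpa [hz m] using f2 n

lemma ncY (hB : IsClosed B) (d : ℕ → N) (hd : ∀ n, d n ∉ B)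
    (h : ∀ g : CB B, Tendsto (fun n => g.1.1 (d n)) atTop (𝓝 0)) :
    ¬ IsClosed (range (j1 B z₀ ∘ d)) := by
  intro hc
  obtain ⟨n, hn⟩ := hc.closure_subset (mem_closure_iff_nhds.2 fun U hU => by
    obtain ⟨F, h1, ε, h2, h3⟩ := nb B z₀ hU
    obtain ⟨n, hn⟩ := ((eventually_all_finite h1).2 fun g _ =>
      Metric.tendsto_nhds.1 (h g) ε h2).exists
    exact ⟨_, h3 (d n) fun g hg => by simpa using hn g hg, n, rfl⟩)
  exact hd n (q0 hB (congrArg (fun p : YY B z₀ => p.1.2) hn))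

abbrev Γ : Type := ℕ → Bool
abbrev J : Type := List Bool ⊕ Γ

def pre (x : Γ) (k : ℕ) : List Bool := List.ofFn fun i : Fin k => x i

open Classical in
noncomputable def e : J → J → Bool :=
  Sum.elim (fun s => Sum.elim (fun t => decide (t = s)) fun y => decide (s = pre y s.length))
    fun x => Sum.elim (fun _ => false) fun y => decide (y = x)

abbrev Ψ : Type := range e

noncomputable def ee (j : J) : Ψ := ⟨e j, j, rfl⟩

def BA (A : Set Γ) : Set Ψ := (ee ∘ .inr) '' A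

lemma BAc (A : Set Γ) : IsClosed (BA A) := by
  have k : ∀ j, IsClosed {p : Ψ | p.1 j = false} := fun j =>
    isClosed_eq ((continuous_apply j).comp continuous_subtype_val) continuous_const
  have : BA A = (⋂ t, {p : Ψ | p.1 (.inl t) = false}) ∩ ⋂ x ∈ Aᶜ, {p | p.1 (.inr x) = false} := by
    ext ⟨_, s | x, rfl⟩
    · refine ⟨?_, fun h => by simpa [e] using mem_iInter.1 h.1 s⟩
      rintro ⟨x, -, h⟩
      simpa [ee, e] using congrFun (congrArg Subtype.val h) (.inl s)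
    · refine ⟨?_, fun h => ⟨x, by
        by_contra hx
        simpa [e] using mem_iInter₂.1 h.2 x hx, rfl⟩⟩
      rintro ⟨y, hy, h⟩
      obtain rfl : x = y := by simpa [ee, e] using congrFun (congrArg Subtype.val h) (.inr x)
      exact ⟨by simp [e], mem_iInter₂.2 fun y h => by
        have : y ≠ x := fun e => h (e ▸ hy)
        simpa [e] using this⟩
  rw [this]
  exact (isClosed_iInter fun _ => k _).inter (isClosed_biInter fun _ _ => k _)

lemma perfΨ (s : Set Ψ) : IsGδ s := by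
  have : s = (⋂ t ∈ (ee ∘ .inl) ⁻¹' sᶜ, {ee (.inl t)}ᶜ) ∩ (BA ((ee ∘ .inr) ⁻¹' sᶜ))ᶜ := by
    refine Subset.antisymm (fun p hp => ⟨mem_iInter₂.2 fun t ht e => ht (by
      rwa [mem_singleton_iff.1 e] at hp), fun h => image_preimage_subset _ _ h hp⟩) ?_
    rintro ⟨_, t | x, rfl⟩ h <;> by_contra hn
    · exact mem_iInter₂.1 h.1 t hn rfl
    · exact h.2 ⟨x, hn, rfl⟩
  rw [this]
  exact (IsGδ.biInter_of_isOpen (to_countable _) fun _ _ => isOpen_compl_singleton).inter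
    (BAc _).isOpen_compl.isGδ

lemma denseΨ : DenseRange (ee ∘ .inl) := by
  rintro ⟨_, t | x, rfl⟩
  · exact subset_closure ⟨t, rfl⟩
  · refine mem_closure_of_tendsto (b := atTop) (f := fun k => ee (.inl (pre x k)))
      (tendsto_subtype_rng.2 (tendsto_pi_nhds.2 fun j => tendsto_const_nhds.congr' ?_))
      (.of_forall fun k => ⟨_, rfl⟩)
    rcases j with t | y
    · filter_upwards [eventually_gt_atTop t.length] with k hk
      have : t ≠ pre x k := fun e => by simp [e, pre] at hk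
      simp [ee, e, this]
    · by_cases h : y = x
      · exact .of_forall fun k => by simp [ee, e, h, pre]
      · obtain ⟨i, hi⟩ := Function.ne_iff.1 h
        filter_upwards [eventually_gt_atTop i] with k hk
        have : pre x k ≠ pre y k := fun e => hi (congrFun (List.ofFn_injective e) ⟨i, hk⟩).symm
        simpa [ee, e, h, pre] using this

theorem notperf : ∃ (A : Set Γ) (z₀ : Ψ), ¬ IsGδ {j0 (BA A) z₀ z₀} := by
  by_contra H
  push Not at H
  choose g hg using fun A => gdY _ _ (BAc A) (H A (ee (.inl [])))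
  have := Cardinal.mk_le_of_injective (f := fun A n t => (g A n).1 (ee (.inl t))) fun A A' h => by
    have : g A = g A' := funext fun n => Subtype.ext (denseΨ.equalizer (g A n).2 (g A' n).2
      (congrFun h n))
    refine (image_injective.2 fun x y h => ?_) ((hg A).trans (this ▸ (hg A').symm))
    simpa [ee, e] using congrFun (congrArg Subtype.val h) (.inr x)
  simp [Cardinal.mk_real] at this
  exact this.not_gt (Cardinal.cantor _)

end Pool.Agent.H.MP_a4908e
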